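import Mathlib

set_option autoImplicit false

namespace Pool.Agent.Results.MP_b00f03_nt.NoRootlessTree

/-- Integer `2 × 2` matrices of determinant `1`. -/
abbrev Mat := Matrix.SpecialLinearGroup (Fin 2) ℤ

/-- `T` lies in `SL₂(ℕ₀)`: all four entries are nonnegative. -/
def Nonneg (T : Mat) : Prop := ∀ i j, 0 ≤ T i j

/-- The action `T(z) = (a z + b) / (c z + d)` of `T = (a b; c d)`. -/
noncomputable def act (T : Mat) (z : ℂ) : ℂ := ((T 0 0 : ℂ) * z + T 0 1) / ((T 1 0 : ℂ) * z + T 1 1)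

/-- `D₀ = {x + y i ∈ K : x > 0, y > 0}`. -/
def D₀ (K : Subfield ℂ) : Set ℂ := {z | z ∈ K ∧ 0 < z.re ∧ 0 < z.im}

/-- A left-right pair: non-identity matrices `L`, `R` in `SL₂(ℕ₀)` with `L(D₀) ∩ R(D₀) = ∅`. -/
def LeftRightPair (K : Subfield ℂ) (L R : Mat) : Prop :=
  Nonneg L ∧ Nonneg R ∧ L ≠ 1 ∧ R ≠ 1 ∧ (act L '' D₀ K) ∩ (act R '' D₀ K) = ∅

/-- The edges `z → L(z)` and `z → R(z)` of the graph `F(L, R)` with vertex set `D₀`. -/
def Edge (K : Subfield ℂ) (L R : Mat) (z w : D₀ K) : Prop :=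
  (w : ℂ) = act L z ∨ (w : ℂ) = act R z

/-- A vertex without a parent. -/
def Orphan (K : Subfield ℂ) (L R : Mat) (w : D₀ K) : Prop := ∀ z : D₀ K, ¬ Edge K L R z w

/-- `C` is a connected component of `F(L, R)`: the class of some vertex for the equivalence
relation which the edges generate. -/
def IsComponent (K : Subfield ℂ) (L R : Mat) (C : Set (D₀ K)) : Prop :=
  ∃ z, C = {w | Relation.EqvGen (Edge K L R) z w}

/-- A component is rootless if it contains no orphan. -/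
def Rootless (K : Subfield ℂ) (L R : Mat) (C : Set (D₀ K)) : Prop :=
  IsComponent K L R C ∧ ∀ w ∈ C, ¬ Orphan K L R w

/-- the number bounding the number of generations above `z` -/
noncomputable def bd (z : ℂ) : ℝ := (1 + z.re ^ 2 + z.im ^ 2) / (2 * z.im)

theorem det_eq (T : Mat) : T 0 0 * T 1 1 - T 0 1 * T 1 0 = 1 := by
  have h := T.det_coe
  rw [Matrix.det_fin_two] at h
  exact h

theorem diag_pos {T : Mat} (h : Nonneg T) : 1 ≤ T 0 0 ∧ 1 ≤ T 1 1 := by
  have h1 := det_eq T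
  have h00 := h 0 0
  have h01 := h 0 1
  have h10 := h 1 0
  have h11 := h 1 1
  have h2 : 0 ≤ T 0 1 * T 1 0 := mul_nonneg h01 h10
  have h3 : 0 < T 0 0 * T 1 1 := by linarith
  constructor
  · by_contra hc
    have : T 0 0 = 0 := by omega
    rw [this] at h3
    simp at h3
  · by_contra hc
    have : T 1 1 = 0 := by omega
    rw [this] at h3
    simp at h3

theorem off_pos {T : Mat} (h : Nonneg T) (h1 : T ≠ 1) : 1 ≤ T 0 1 + T 1 0 := by
  by_contra hc
  have h01 := h 0 1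
  have h10 := h 1 0
  have e01 : T 0 1 = 0 := by omega
  have e10 : T 1 0 = 0 := by omega
  have hd := det_eq T
  rw [e01] at hd
  obtain ⟨ha, hb⟩ := diag_pos h
  have ha1 : T 0 0 = 1 := by nlinarith
  have hb1 : T 1 1 = 1 := by nlinarith
  apply h1
  ext i j
  fin_cases i <;> fin_cases j
  · simpa using ha1
  · simpa using e01
  · simpa using e10
  · simpa using hb1

theorem denom_ne {T : Mat} (h : Nonneg T) {z : ℂ} (hz : 0 < z.re) :
    ((T 1 0 : ℂ) * z + T 1 1) ≠ 0 := by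
  intro h0
  have h1 := congrArg Complex.re h0
  simp only [Complex.add_re, Complex.mul_re, Complex.intCast_re, Complex.intCast_im, zero_mul,
    sub_zero, Complex.zero_re] at h1
  have h2 : (0 : ℝ) ≤ (T 1 0 : ℝ) := by exact_mod_cast h 1 0
  have h3 : (1 : ℝ) ≤ (T 1 1 : ℝ) := by exact_mod_cast (diag_pos h).2
  nlinarith [mul_nonneg h2 hz.le]

theorem nonneg_mul {S T : Mat} (hS : Nonneg S) (hT : Nonneg T) : Nonneg (S * T) := by
  intro i j
  rw [Matrix.SpecialLinearGroup.coe_mul, Matrix.mul_apply]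
  exact Finset.sum_nonneg fun k _ => mul_nonneg (hS i k) (hT k j)

theorem act_mul {S T : Mat} (hS : Nonneg S) (hT : Nonneg T) {z : ℂ} (hz : 0 < z.re) :
    act (S * T) z = act S (act T z) := by
  have h1 := denom_ne hT hz
  have h2 := denom_ne (nonneg_mul hS hT) hz
  unfold act at *
  simp only [Matrix.SpecialLinearGroup.coe_mul, Matrix.mul_apply, Fin.sum_univ_two, Int.cast_add,
    Int.cast_mul] at h2 ⊢
  set D : ℂ := (T 1 0 : ℂ) * z + T 1 1 with hD
  have e1 : ((S 1 0 : ℂ) * (((T 0 0 : ℂ) * z + T 0 1) / D) + S 1 1) =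
      (((S 1 0 : ℂ) * T 0 0 + S 1 1 * T 1 0) * z + (S 1 0 * T 0 1 + S 1 1 * T 1 1)) / D := by
    rw [eq_div_iff h1, add_mul, mul_assoc, div_mul_cancel₀ _ h1, hD]
    ring
  have e2 : ((S 0 0 : ℂ) * (((T 0 0 : ℂ) * z + T 0 1) / D) + S 0 1) =
      (((S 0 0 : ℂ) * T 0 0 + S 0 1 * T 1 0) * z + (S 0 0 * T 0 1 + S 0 1 * T 1 1)) / D := by
    rw [eq_div_iff h1, add_mul, mul_assoc, div_mul_cancel₀ _ h1, hD]
    ring
  rw [e1, e2, div_div_div_cancel_right₀ h1]

/-- `b + c ≤ (1 + |z|²) / (2 Im z)` if `z = T(w)` with `T = (a b; c d)` in `SL₂(ℕ₀)`, `w` in the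
open first quadrant. -/
theorem off_le {T : Mat} (h : Nonneg T) {w : ℂ} (hx : 0 < w.re) (hy : 0 < w.im)
    (hz : 0 < (act T w).im) : ((T 0 1 : ℝ) + T 1 0) ≤ bd (act T w) := by
  have hne := denom_ne h hx
  obtain ⟨ha, hd⟩ := diag_pos h
  have hb := h 0 1
  have hc := h 1 0
  have ha' : (1 : ℝ) ≤ (T 0 0 : ℝ) := by exact_mod_cast ha
  have hd' : (1 : ℝ) ≤ (T 1 1 : ℝ) := by exact_mod_cast hd
  have hb' : (0 : ℝ) ≤ (T 0 1 : ℝ) := by exact_mod_cast hb
  have hc' : (0 : ℝ) ≤ (T 1 0 : ℝ) := by exact_mod_cast hc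
  have hdet : (T 0 0 : ℝ) * T 1 1 - T 0 1 * T 1 0 = 1 := by exact_mod_cast det_eq T
  set a : ℝ := (T 0 0 : ℝ)
  set b : ℝ := (T 0 1 : ℝ)
  set c : ℝ := (T 1 0 : ℝ)
  set d : ℝ := (T 1 1 : ℝ)
  set x := w.re with hxdef
  set y := w.im with hydef
  set z := act T w with hzdef
  -- z * (c w + d) = a w + b
  have hmul : z * ((T 1 0 : ℂ) * w + T 1 1) = (T 0 0 : ℂ) * w + T 0 1 := by
    rw [hzdef, act, div_mul_cancel₀ _ hne]
  have hre := congrArg Complex.re hmul
  have him := congrArg Complex.im hmul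
  simp only [Complex.mul_re, Complex.mul_im, Complex.add_re, Complex.add_im, Complex.intCast_re,
    Complex.intCast_im, zero_mul, sub_zero, add_zero] at hre him
  change z.re * (c * x + d) - z.im * (c * y) = a * x + b at hre
  change z.re * (c * y) + z.im * (c * x + d) = a * y at him
  -- the imaginary part
  set u := z.re
  set v := z.im
  have hq : v * ((c * x + d) ^ 2 + (c * y) ^ 2) = y := by
    have : v * ((c * x + d) ^ 2 + (c * y) ^ 2) = (a * d - b * c) * y := by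
      linear_combination (c * x + d) * him - (c * y) * hre
    rw [this, hdet, one_mul]
  have hq2 : (u ^ 2 + v ^ 2) * ((c * x + d) ^ 2 + (c * y) ^ 2) = (a * x + b) ^ 2 + (a * y) ^ 2 := by
    rw [← hre, ← him]; ring
  have hpos : 0 < (c * x + d) ^ 2 + (c * y) ^ 2 := by
    have : 0 < c * x + d := by nlinarith [mul_nonneg hc' hx.le]
    positivity
  have h1 : 2 * c * y ≤ (c * x + d) ^ 2 + (c * y) ^ 2 := by
    nlinarith [sq_nonneg (c * y - (c * x + d)), mul_nonneg hc' hx.le, mul_nonneg hc' hy.le,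
      mul_nonneg (mul_nonneg hc' hy.le) (mul_nonneg hc' hx.le),
      mul_nonneg (mul_nonneg hc' hy.le) (sub_nonneg.2 hd')]
  have h2 : 2 * b * y ≤ (a * x + b) ^ 2 + (a * y) ^ 2 := by
    have hax : 0 ≤ a * x := by positivity
    have hay : 0 ≤ (a - 1) * y := mul_nonneg (by linarith) hy.le
    nlinarith [sq_nonneg (a * y - b), mul_nonneg hax hb', mul_nonneg hb' hay]
  -- 2 (b + c) v ≤ 1 + u² + v²
  have h3 : 2 * c * v ≤ 1 := by
    have h4 : (2 * c * v) * y ≤ 1 * y := by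
      calc (2 * c * v) * y = v * (2 * c * y) := by ring
        _ ≤ v * ((c * x + d) ^ 2 + (c * y) ^ 2) := mul_le_mul_of_nonneg_left h1 hz.le
        _ = 1 * y := by rw [hq, one_mul]
    exact le_of_mul_le_mul_right h4 hy
  have h5 : 2 * b * v ≤ u ^ 2 + v ^ 2 := by
    have h6 : (2 * b * v) * ((c * x + d) ^ 2 + (c * y) ^ 2) ≤
        (u ^ 2 + v ^ 2) * ((c * x + d) ^ 2 + (c * y) ^ 2) := by
      calc (2 * b * v) * ((c * x + d) ^ 2 + (c * y) ^ 2)
          = 2 * b * (v * ((c * x + d) ^ 2 + (c * y) ^ 2)) := by ring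
        _ = 2 * b * y := by rw [hq]
        _ ≤ (a * x + b) ^ 2 + (a * y) ^ 2 := h2
        _ = _ := hq2.symm
    exact le_of_mul_le_mul_right h6 hpos
  change b + c ≤ (1 + u ^ 2 + v ^ 2) / (2 * v)
  rw [le_div_iff₀ (by positivity)]
  linarith

/-- If a vertex has a chain of `n` generations of ancestors, then it is the image of a vertex under
a matrix of `SL₂(ℕ₀)` whose off-diagonal entries have sum at least `n`. -/
theorem exists_mat {K : Subfield ℂ} {L R : Mat} (hL : Nonneg L) (hR : Nonneg R) (hL1 : L ≠ 1)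
    (hR1 : R ≠ 1) (f : ℕ → D₀ K) (hf : ∀ n, Edge K L R (f (n + 1)) (f n)) (n : ℕ) :
    ∃ T : Mat, Nonneg T ∧ (n : ℤ) ≤ T 0 1 + T 1 0 ∧ (f 0 : ℂ) = act T (f n) := by
  induction n with
  | zero =>
    refine ⟨1, ?_, ?_, ?_⟩
    · intro i j
      fin_cases i <;> fin_cases j <;> simp
    · simp
    · simp [act]
  | succ n ih =>
    obtain ⟨T, hT, hn, hT0⟩ := ih
    have key : ∀ M : Mat, Nonneg M → M ≠ 1 → (f n : ℂ) = act M (f (n + 1)) →
        ∃ T : Mat, Nonneg T ∧ ((n + 1 : ℕ) : ℤ) ≤ T 0 1 + T 1 0 ∧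
          (f 0 : ℂ) = act T (f (n + 1)) := by
      intro M hM hM1 hMf
      refine ⟨T * M, nonneg_mul hT hM, ?_, ?_⟩
      · have h1 := off_pos hM hM1
        obtain ⟨ha, hd⟩ := diag_pos hT
        obtain ⟨ha', hd'⟩ := diag_pos hM
        have hb := hT 0 1
        have hc := hT 1 0
        have hb' := hM 0 1
        have hc' := hM 1 0
        simp only [Matrix.SpecialLinearGroup.coe_mul, Matrix.mul_apply, Fin.sum_univ_two]
        push_cast
        nlinarith [mul_nonneg (sub_nonneg.2 ha) hb', mul_nonneg hb (sub_nonneg.2 hd'),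
          mul_nonneg hc (sub_nonneg.2 ha'), mul_nonneg (sub_nonneg.2 hd) hc']
      · rw [act_mul hT hM (f (n + 1)).2.2.1, ← hMf]
        exact hT0
    rcases hf n with h | h
    · exact key L hL hL1 h
    · exact key R hR hR1 h

/-- **No left-right pair has a rootless tree.** For every subfield `K` of `ℂ` that is not contained in
`ℝ` and every left-right pair `(L, R)` over `K`, no component of the forest `F(L, R)` is rootless. -/
theorem result (K : Subfield ℂ) (_hK : ∃ z ∈ K, z.im ≠ 0) :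
    {p : Mat × Mat | LeftRightPair K p.1 p.2 ∧ ∃ C, Rootless K p.1 p.2 C} = ∅ := by
  rw [Set.eq_empty_iff_forall_notMem]
  rintro ⟨L, R⟩ ⟨⟨hL, hR, hL1, hR1, -⟩, C, ⟨z, rfl⟩, hC⟩
  -- every vertex of the component has a parent in the component
  have hpar : ∀ w : {w // Relation.EqvGen (Edge K L R) z w},
      ∃ w' : {w // Relation.EqvGen (Edge K L R) z w}, Edge K L R w'.1 w.1 := by
    rintro ⟨w, hw⟩
    have h1 := hC w hw
    simp only [Orphan, not_forall, not_not] at h1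
    obtain ⟨w', hw'⟩ := h1
    exact ⟨⟨w', hw.trans _ _ _ (Relation.EqvGen.symm _ _ (Relation.EqvGen.rel _ _ hw'))⟩, hw'⟩
  choose g hg using hpar
  let f : ℕ → {w // Relation.EqvGen (Edge K L R) z w} :=
    fun n => g^[n] ⟨z, Relation.EqvGen.refl z⟩
  have hf : ∀ n, Edge K L R (f (n + 1)).1 (f n).1 := by
    intro n
    have : f (n + 1) = g (f n) := Function.iterate_succ_apply' g n _
    rw [this]
    exact hg (f n)
  obtain ⟨N, hN⟩ := exists_nat_gt (bd ((f 0).1 : ℂ))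
  obtain ⟨T, hT, hn, hT0⟩ := exists_mat hL hR hL1 hR1 (fun n => (f n).1) hf N
  have h1 := off_le hT (f N).1.2.2.1 (f N).1.2.2.2 (by rw [← hT0]; exact (f 0).1.2.2.2)
  rw [← hT0] at h1
  have h2 : (N : ℝ) ≤ (T 0 1 : ℝ) + T 1 0 := by exact_mod_cast hn
  linarith

end Pool.Agent.Results.MP_b00f03_nt.NoRootlessTree
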